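import Pool.Agent.Lib.MP_9a7843_ag_L.Emb

/-!
# MP_9a7843_ag, block L: the export `ExpLift`
-/

noncomputable section

open MvPolynomial

open Pool.Agent.MP9a7843 Pool.Agent.MP9a7843.ProjVar

namespace MP9a7843

universe u

variable (k : Type u) [Field k]

/-- Block L. -/
theorem expLift [IsAlgClosed k] : ExpLift k := by
  intro X Y f hf α M β N hM hN hcl d Ω _ _ φ hφ hgen
  obtain ⟨n, Q, g, hg⟩ := exists_isLift f hN.1.1 hcl hφ
  have hm : ∀ (r : ℕ) (G : MvPolynomial X.ι k), G.IsHomogeneous r →
      aeval (fun i => polyOf fun j => algebraMap Ω (AlgebraicClosure Ω) (φ (i, j))) G = 0 →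
        aeval X.z G = 0 := by
    intro r G hG h0
    refine hgen r G hG ?_
    have h1 : (fun i => polyOf fun j => algebraMap Ω (AlgebraicClosure Ω) (φ (i, j))) =
        fun i => Polynomial.mapAlgHom (IsScalarTower.toAlgHom k Ω (AlgebraicClosure Ω))
          (polyOf fun j => φ (i, j)) := by
      funext i
      exact polyOf_map (algebraMap Ω (AlgebraicClosure Ω)) d fun j => φ (i, j)
    rw [h1, ← comp_aeval_apply] at h0
    have h2 : Function.Injective (Polynomial.mapAlgHom
        (IsScalarTower.toAlgHom k Ω (AlgebraicClosure Ω))) :=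
      Polynomial.map_injective _ (algebraMap Ω (AlgebraicClosure Ω)).injective
    exact h2 (h0.trans (map_zero _).symm)
  refine ⟨hg.dominant hm, ?_⟩
  obtain ⟨lam, r, hr, h⟩ := hg.exists_emb hm hf
  exact ⟨lam, r, hr, h⟩

end MP9a7843
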