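import Pool.Agent.Lib.MP_9a7843_ag_L.Lift

/-!
# MP_9a7843_ag, block L: embedding of the function field given by a lift
-/

noncomputable section

open MvPolynomial

open Pool.Agent.MP9a7843 Pool.Agent.MP9a7843.ProjVar

namespace MP9a7843

universe u

variable {k : Type u} [Field k] {X Y : ProjVar k} {f : Hom Y X} {Ω : Type u} [Field Ω]
  [Algebra k Ω] {n : ℕ} {Q : X.ι → MvPolynomial Y.ι k} {g : Y.ι → Polynomial Ω}
  {m : X.ι → Polynomial Ω}

/-- The point of `Y` given by a lift. -/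
def ptC (g : Y.ι → Polynomial Ω) (j : Y.ι) : RatFunc Ω :=
  algebraMap (Polynomial Ω) (RatFunc Ω) (g j)

/-- Values of forms. -/
theorem aeval_ptC {ι : Type} (g : ι → Polynomial Ω) (G : MvPolynomial ι k) :
    aeval (fun j => algebraMap (Polynomial Ω) (RatFunc Ω) (g j)) G =
      algebraMap (Polynomial Ω) (RatFunc Ω) (aeval g G) := by
  exact MvPolynomial.aeval_algebraMap_apply (RatFunc Ω) g G

theorem IsLift.isPt (h : IsLift f n Q g m) : Y.IsPt (ptC g) := by
  have hinj := IsFractionRing.injective (Polynomial Ω) (RatFunc Ω)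
  obtain ⟨j, hj⟩ := h.g_ne
  refine ⟨⟨j, fun h0 => hj (hinj (h0.trans (map_zero _).symm))⟩, fun r G hG h0 => ?_⟩
  have h1 : aeval (ptC g) G = algebraMap (Polynomial Ω) (RatFunc Ω) (aeval g G) := aeval_ptC g G
  rw [h1, h.g_van r G hG h0, map_zero]

/-- `f` maps the point to `m` (cross relations for both, `Hom.app_forms`, `Hom.isPt_app`). -/
theorem IsLift.app_eq [IsAlgClosed k] (h : IsLift f n Q g m) (hm : ∃ i, m i ≠ 0) :
    ∃ s : RatFunc Ω, s ≠ 0 ∧ f.app (ptC g) =
      s • fun i => algebraMap (Polynomial Ω) (RatFunc Ω) (m i) := by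
  have hinj := IsFractionRing.injective (Polynomial Ω) (RatFunc Ω)
  have hne : ∀ p : Polynomial Ω, p ≠ 0 → algebraMap (Polynomial Ω) (RatFunc Ω) p ≠ 0 :=
    fun p hp h0 => hp (hinj (h0.trans (map_zero _).symm))
  have hc := h.isPt
  obtain ⟨i0, hi0⟩ := h.q_ne
  have hq : ∀ i, aeval (ptC g) (Q i) = algebraMap (Polynomial Ω) (RatFunc Ω) (aeval g (Q i)) :=
    fun i => aeval_ptC g (Q i)
  have hq0 : aeval (ptC g) (Q i0) ≠ 0 := by
    rw [hq]
    exact hne _ hi0
  have e1 : ∀ i, aeval (ptC g) (Q i0) * f.app (ptC g) i =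
      aeval (ptC g) (Q i) * f.app (ptC g) i0 := fun i => f.app_forms hc h.homog h.cross i0 i
  have e2 : ∀ i, aeval (ptC g) (Q i0) * algebraMap (Polynomial Ω) (RatFunc Ω) (m i) =
      aeval (ptC g) (Q i) * algebraMap (Polynomial Ω) (RatFunc Ω) (m i0) := fun i => by
    rw [hq, hq, ← map_mul, ← map_mul, h.g_cross i0 i]
  have h1 : f.app (ptC g) i0 ≠ 0 := by
    intro h0
    obtain ⟨i, hi⟩ := (f.isPt_app hc).1
    have h2 := e1 i
    rw [h0, mul_zero] at h2
    exact hi ((mul_eq_zero.1 h2).resolve_left hq0)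
  have h2 : algebraMap (Polynomial Ω) (RatFunc Ω) (m i0) ≠ 0 := by
    intro h0
    obtain ⟨i, hi⟩ := hm
    have h2 := e2 i
    rw [h0, mul_zero] at h2
    exact hne _ hi ((mul_eq_zero.1 h2).resolve_left hq0)
  refine ⟨f.app (ptC g) i0 / algebraMap (Polynomial Ω) (RatFunc Ω) (m i0), div_ne_zero h1 h2, ?_⟩
  funext i
  rw [Pi.smul_apply, smul_eq_mul]
  have h3 : aeval (ptC g) (Q i0) * f.app (ptC g) i = aeval (ptC g) (Q i0) *
      (f.app (ptC g) i0 / algebraMap (Polynomial Ω) (RatFunc Ω) (m i0) *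
        algebraMap (Polynomial Ω) (RatFunc Ω) (m i)) := by
    rw [e1 i, mul_left_comm, e2 i]
    field_simp
  exact mul_left_cancel₀ hq0 h3

private theorem Emb_ne {m : X.ι → Polynomial Ω}
    (hm : ∀ (r : ℕ) (G : MvPolynomial X.ι k), G.IsHomogeneous r → aeval m G = 0 →
      aeval X.z G = 0) : ∃ i, m i ≠ 0 := by
  obtain ⟨i, hi⟩ := X.exists_ne_zero
  refine ⟨i, fun h0 => hi ?_⟩
  have h1 := hm 1 (MvPolynomial.X i) (isHomogeneous_X _ _) (by rw [aeval_X, h0])
  rwa [aeval_X] at h1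

/-- If `m` is a generic point of `X`, the generic point of `X` is in the closure of the image. -/
theorem IsLift.spec [IsAlgClosed k] (h : IsLift f n Q g m)
    (hm : ∀ (r : ℕ) (G : MvPolynomial X.ι k), G.IsHomogeneous r → aeval m G = 0 →
      aeval X.z G = 0) : Spec (f.app (ptC g)) X.z := by
  have hinj := IsFractionRing.injective (Polynomial Ω) (RatFunc Ω)
  obtain ⟨s, hs, he⟩ := h.app_eq (Emb_ne hm)
  intro r G hG h0
  rw [he, aeval_smul (Y := X) hG] at h0
  have h1 := (mul_eq_zero.1 h0).resolve_left (pow_ne_zero _ hs)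
  rw [aeval_ptC] at h1
  exact hm r G hG (hinj (h1.trans (map_zero _).symm))

/-- `f` is dominant: `G(f.coord) = 0` gives `G(f.app Y.z) = 0` (`Hom.app_z`), so
`G(f.app (ptC g)) = 0` (`Hom.spec_app`, `spec_z`), so `G(X.z) = 0`. -/
theorem IsLift.dominant [IsAlgClosed k] (h : IsLift f n Q g m)
    (hm : ∀ (r : ℕ) (G : MvPolynomial X.ι k), G.IsHomogeneous r → aeval m G = 0 →
      aeval X.z G = 0) : f.Dominant := by
  intro r G hG h0
  obtain ⟨s, hs, he⟩ := f.app_z
  have h1 : aeval (f.app Y.z) G = 0 := by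
    rw [he, aeval_smul (Y := X) hG, h0, mul_zero]
  exact h.spec hm r G hG (f.spec_app isPt_z h.isPt (spec_z h.isPt) r G hG h1)

/-- All functions on `Y` are defined at the point: `loc` contains the pull-backs of the functions
on `X` (`Hom.ev_coord_mem`, `Spec.loc_le`, `loc_z`), hence the field generated by the
`f.coord i / f.coord j`; `Y.K` is algebraic over it, so `loc` is closed under inverses
(`Subalgebra.inv_mem_of_algebraic`); `exists_loc_div`. -/
theorem IsLift.loc_eq_top [IsAlgClosed k] (h : IsLift f n Q g m)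
    (hm : ∀ (r : ℕ) (G : MvPolynomial X.ι k), G.IsHomogeneous r → aeval m G = 0 →
      aeval X.z G = 0) (hf : f.GenFinite) : Y.loc (ptC g) = ⊤ := by
  have hc := h.isPt
  have hd := h.dominant hm
  have hsp := h.spec hm
  have h1 : ∀ a : X.K, X.ev f.coord a ∈ Y.loc (ptC g) := by
    intro a
    refine (f.ev_coord_mem hc (a := a) (hsp.loc_le ?_)).2.1
    rw [loc_z]
    exact Algebra.mem_top
  have h2 : IntermediateField.adjoin k {a : Y.K | ∃ i j, a = f.coord i / f.coord j} ≤
      hd.emb.fieldRange := by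
    rw [IntermediateField.adjoin_le_iff]
    rintro _ ⟨i, j, rfl⟩
    by_cases hj : f.coord j = 0
    · rw [hj, div_zero]
      exact zero_mem _
    · exact ⟨X.z i / X.z j, ev_coord_div f.isPt i hj⟩
  have h3 : ∀ a ∈ IntermediateField.adjoin k {a : Y.K | ∃ i j, a = f.coord i / f.coord j},
      a ∈ Y.loc (ptC g) := by
    intro a ha
    obtain ⟨b, hb⟩ := h2 ha
    rw [← hb]
    exact h1 b
  have halg : Algebra.IsAlgebraic
    (IntermediateField.adjoin k {a : Y.K | ∃ i j, a = f.coord i / f.coord j}) Y.K := hf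
  let A : Subalgebra (IntermediateField.adjoin k {a : Y.K | ∃ i j, a = f.coord i / f.coord j})
      Y.K :=
    { carrier := Y.loc (ptC g)
      mul_mem' := fun ha hb => mul_mem (S := Subalgebra k Y.K) ha hb
      add_mem' := fun ha hb => add_mem (S := Subalgebra k Y.K) ha hb
      algebraMap_mem' := fun a => h3 _ a.2 }
  have h4 : ∀ y ∈ Y.loc (ptC g), y⁻¹ ∈ Y.loc (ptC g) := by
    intro y hy
    exact A.inv_mem_of_algebraic (x := ⟨y, hy⟩) (halg.isAlgebraic y)
  refine eq_top_iff.2 fun a _ => ?_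
  obtain ⟨x, hx, y, hy, -, rfl⟩ := exists_loc_div hc a
  rw [div_eq_mul_inv]
  exact mul_mem hx (h4 y hy)

/-- The embedding (`evHom` at the point). -/
theorem IsLift.exists_emb [IsAlgClosed k] (h : IsLift f n Q g m)
    (hm : ∀ (r : ℕ) (G : MvPolynomial X.ι k), G.IsHomogeneous r → aeval m G = 0 →
      aeval X.z G = 0) (hf : f.GenFinite) :
    ∃ (lam : Y.K →ₐ[k] RatFunc Ω) (r : RatFunc Ω), r ≠ 0 ∧
      ∀ i, lam (f.coord i) = r * algebraMap (Polynomial Ω) (RatFunc Ω) (m i) := by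
  have hc := h.isPt
  have htop := h.loc_eq_top hm hf
  have hmem : ∀ a : Y.K, a ∈ Y.loc (ptC g) := fun a => by
    rw [htop]
    exact Algebra.mem_top
  let lam : Y.K →ₐ[k] RatFunc Ω :=
    { toFun := fun a => Y.ev (ptC g) a
      map_one' := ev_one hc
      map_mul' := fun a b => ev_mul hc (hmem a) (hmem b)
      map_zero' := ev_zero hc
      map_add' := fun a b => ev_add hc (hmem a) (hmem b)
      commutes' := fun r => ev_algebraMap hc r }
  obtain ⟨s, hs, he⟩ := h.app_eq (Emb_ne hm)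
  obtain ⟨j, hj⟩ := f.isPt.1
  obtain ⟨r, hr, her⟩ := f.app_eq hc hj fun i => hmem _
  have hlj : lam (f.coord j) ≠ 0 := (map_ne_zero lam).2 hj
  refine ⟨lam, lam (f.coord j) * s / r, div_ne_zero (mul_ne_zero hlj hs) hr, fun i => ?_⟩
  have h1 : f.app (ptC g) i = s * algebraMap (Polynomial Ω) (RatFunc Ω) (m i) := by
    rw [he]
    rfl
  have h2 : f.app (ptC g) i = r * lam (f.coord i / f.coord j) := by
    rw [her]
    rfl
  rw [map_div₀, h1] at h2
  field_simp at h2 ⊢
  linear_combination (-1 : RatFunc Ω) * h2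

end MP9a7843
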