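import Pool.Agent.Lib.MP_9a7843_ag_A.Exports

/-!
# MP_9a7843_ag, block L: generic points of sets of tuples, and the generic solution of a system

A system of equations that has a solution over every point of `D` has a solution over the
generic point of `D`, in an algebraically closed field.
-/

noncomputable section

open MvPolynomial

namespace MP9a7843

universe u

variable {k : Type u} [Field k] {σ τ : Type} {Ω Ω' : Type u} [Field Ω] [Algebra k Ω]
  [Field Ω'] [Algebra k Ω'] [Algebra Ω Ω'] [IsScalarTower k Ω Ω']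

/-- `φ` is a generic point of `D`. -/
def GenOf (φ : σ → Ω) (D : Set (σ → k)) : Prop :=
  ∀ p : MvPolynomial σ k, aeval φ p = 0 ↔ ∀ a ∈ D, aeval a p = 0

/-- If `D` is a finite union, `φ` is a generic point of one of the pieces.
(Otherwise there are polynomials `p_i` that vanish on `E_i` but not at `φ`; their product
vanishes on `D` but not at `φ`.) -/
theorem GenOf.cover {φ : σ → Ω} {D : Set (σ → k)} (h : GenOf φ D) {κ : Type*} (s : Finset κ)
    (E : κ → Set (σ → k)) (hE : ∀ i ∈ s, E i ⊆ D) (hD : ∀ a ∈ D, ∃ i ∈ s, a ∈ E i) :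
    ∃ i ∈ s, GenOf φ (E i) := by
  by_contra hcon
  push Not at hcon
  have h1 : ∀ i ∈ s, ∃ p : MvPolynomial σ k, (∀ a ∈ E i, aeval a p = 0) ∧ aeval φ p ≠ 0 := by
    intro i hi
    by_contra h2
    push Not at h2
    refine hcon i hi fun p => ⟨fun hp a ha => (h p).1 hp a (hE i hi ha), fun hp => h2 p hp⟩
  choose! p hp1 hp2 using h1
  have h3 : aeval φ (∏ i ∈ s, p i) = 0 := by
    refine (h _).2 fun a ha => ?_
    obtain ⟨i, hi, hai⟩ := hD a ha
    rw [map_prod]
    exact Finset.prod_eq_zero hi (hp1 i hi a hai)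
  rw [map_prod] at h3
  obtain ⟨i, hi, h4⟩ := Finset.prod_eq_zero_iff.1 h3
  exact hp2 i hi h4

/-- The subring `k[φ]`. -/
private abbrev rg (φ : σ → Ω) : Subalgebra k Ω := (aeval φ : MvPolynomial σ k →ₐ[k] Ω).range

/-- The value of `p(φ)` at `a`. -/
private theorem exists_ev {φ : σ → Ω} {D : Set (σ → k)} (h : GenOf φ D) {a : σ → k} (ha : a ∈ D) :
    ∃ e : rg (k := k) φ →ₐ[k] k, ∀ p : MvPolynomial σ k,
      e ((aeval φ : MvPolynomial σ k →ₐ[k] Ω).rangeRestrict p) = aeval a p := by
  let f : MvPolynomial σ k →ₐ[k] rg (k := k) φ :=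
    (aeval φ : MvPolynomial σ k →ₐ[k] Ω).rangeRestrict
  have hf : Function.Surjective f := AlgHom.rangeRestrict_surjective _
  have hker : ∀ x y : MvPolynomial σ k, f x = f y → aeval a x = aeval a y := by
    intro x y hxy
    have h1 : aeval φ (x - y) = 0 := by
      have h2 : ((f x : rg (k := k) φ) : Ω) = f y := by rw [hxy]
      rw [map_sub, sub_eq_zero]
      exact h2
    have h3 := (h _).1 h1 a ha
    rwa [map_sub, sub_eq_zero] at h3
  have hs : ∀ x, f (Function.surjInv hf x) = x := Function.surjInv_eq hf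
  refine ⟨{ toFun := fun x => aeval a (Function.surjInv hf x)
            map_one' := ?_
            map_mul' := ?_
            map_zero' := ?_
            map_add' := ?_
            commutes' := ?_ }, fun p => hker _ _ (hs _)⟩
  · rw [hker _ 1 (by rw [hs, map_one]), map_one]
  · intro x y
    rw [hker _ (Function.surjInv hf x * Function.surjInv hf y) (by rw [hs, map_mul, hs, hs]),
      map_mul]
  · rw [hker _ 0 (by rw [hs, map_zero]), map_zero]
  · intro x y
    rw [hker _ (Function.surjInv hf x + Function.surjInv hf y) (by rw [hs, map_add, hs, hs]),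
      map_add]
  · intro r
    rw [hker _ (algebraMap k _ r) (by rw [hs, AlgHom.commutes]), AlgHom.commutes]

attribute [local instance] algebraMvPolynomial

/-- The map to `k[φ][τ]`. -/
private def Phi (τ : Type) (φ : σ → Ω) : MvPolynomial (τ ⊕ σ) k →ₐ[k]
    MvPolynomial τ (rg (k := k) φ) :=
  aeval (Sum.elim X fun s => C ((aeval φ : MvPolynomial σ k →ₐ[k] Ω).rangeRestrict (X s)))

private theorem Phi_inr (φ : σ → Ω) (p : MvPolynomial σ k) :
    Phi τ φ (rename Sum.inr p) = C ((aeval φ : MvPolynomial σ k →ₐ[k] Ω).rangeRestrict p) := by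
  have h : (Phi τ φ).comp (rename Sum.inr) =
      ((IsScalarTower.toAlgHom k (rg (k := k) φ) (MvPolynomial τ (rg (k := k) φ))).comp
        (aeval φ : MvPolynomial σ k →ₐ[k] Ω).rangeRestrict) := by
    refine MvPolynomial.algHom_ext fun s => ?_
    rw [AlgHom.comp_apply, rename_X, Phi, aeval_X]
    rfl
  exact DFunLike.congr_fun h p

private theorem Phi_surj (φ : σ → Ω) : Function.Surjective (Phi (k := k) τ φ) := by
  intro q
  induction q using MvPolynomial.induction_on with
  | C x =>
    obtain ⟨p, rfl⟩ := AlgHom.rangeRestrict_surjective _ x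
    exact ⟨_, Phi_inr φ p⟩
  | add p q hp hq =>
    obtain ⟨x, rfl⟩ := hp
    obtain ⟨y, rfl⟩ := hq
    exact ⟨x + y, map_add _ _ _⟩
  | mul_X p i hp =>
    obtain ⟨x, rfl⟩ := hp
    refine ⟨x * X (Sum.inl i), ?_⟩
    rw [map_mul, Phi, aeval_X]
    rfl

/-- Evaluation at `(t, a)` factors over `Phi`. -/
private theorem Phi_ev (φ : σ → Ω) {a : σ → k} (t : τ → k) (e : rg (k := k) φ →ₐ[k] k)
    (he : ∀ p : MvPolynomial σ k,
      e ((aeval φ : MvPolynomial σ k →ₐ[k] Ω).rangeRestrict p) = aeval a p)
    (P : MvPolynomial (τ ⊕ σ) k) :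
    eval₂ e.toRingHom t (Phi τ φ P) = aeval (Sum.elim t a) P := by
  have h : (eval₂Hom e.toRingHom t).comp (Phi τ φ).toRingHom =
      (aeval (Sum.elim t a) : MvPolynomial (τ ⊕ σ) k →ₐ[k] k).toRingHom := by
    refine MvPolynomial.ringHom_ext (fun r => ?_) fun s => ?_
    · show eval₂ e.toRingHom t (Phi τ φ (algebraMap k _ r)) =
        aeval (Sum.elim t a) (algebraMap k _ r)
      rw [AlgHom.commutes, AlgHom.commutes]
      have h1 : algebraMap k (MvPolynomial τ (rg (k := k) φ)) r =
        C (algebraMap k (rg (k := k) φ) r) := rfl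
      rw [h1, eval₂_C]
      exact e.commutes r
    · show eval₂ e.toRingHom t (Phi τ φ (X s)) = aeval (Sum.elim t a) (X s)
      rw [aeval_X, Phi, aeval_X]
      rcases s with s | s
      · exact eval₂_X _ _ _
      · rw [Sum.elim_inr, Sum.elim_inr, eval₂_C]
        refine (he (X s)).trans ?_
        rw [aeval_X]
  exact DFunLike.congr_fun h P

/-- A system over `k` that is solvable over every `a ∈ D` is solvable over the generic point. -/
theorem GenOf.exists_solution [Finite τ] [IsAlgClosed Ω'] {φ : σ → Ω} {D : Set (σ → k)}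
    (h : GenOf φ D) (E : Set (MvPolynomial (τ ⊕ σ) k))
    (hE : ∀ a ∈ D, ∃ t : τ → k, ∀ P ∈ E, aeval (Sum.elim t a) P = 0) :
    ∃ t : τ → Ω', ∀ P ∈ E, aeval (Sum.elim t fun s => algebraMap Ω Ω' (φ s)) P = 0 := by
  classical
  let A := rg (k := k) φ
  have hinj : Function.Injective (algebraMap A Ω') := by
    intro x y hxy
    have h1 : algebraMap Ω Ω' (x : Ω) = algebraMap Ω Ω' (y : Ω) := hxy
    exact Subtype.ext ((algebraMap Ω Ω').injective h1)
  have : FaithfulSMul A Ω' := (faithfulSMul_iff_algebraMap_injective A Ω').2 hinj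
  let _ : Algebra (FractionRing A) Ω' := FractionRing.liftAlgebra A Ω'
  have : IsScalarTower A (FractionRing A) Ω' := FractionRing.isScalarTower_liftAlgebra A Ω'
  let I1 : Ideal (MvPolynomial τ A) := (Ideal.span E).map (Phi τ φ)
  let I0 : Ideal (MvPolynomial τ (FractionRing A)) := I1.map (algebraMap _ _)
  by_cases hz : ∃ t : τ → Ω', t ∈ zeroLocus Ω' I0
  · obtain ⟨t, ht⟩ := hz
    refine ⟨t, fun P hP => ?_⟩
    have h1 : algebraMap (MvPolynomial τ A) (MvPolynomial τ (FractionRing A)) (Phi τ φ P) ∈ I0 :=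
      Ideal.mem_map_of_mem _ (Ideal.mem_map_of_mem _ (Ideal.subset_span hP))
    have h2 := ht _ h1
    have h3 : ((aeval t : MvPolynomial τ (FractionRing A) →ₐ[FractionRing A] Ω').toRingHom.comp
        (algebraMap (MvPolynomial τ A) (MvPolynomial τ (FractionRing A)))).comp
          (Phi τ φ).toRingHom =
        (aeval (Sum.elim t fun s => algebraMap Ω Ω' (φ s)) :
          MvPolynomial (τ ⊕ σ) k →ₐ[k] Ω').toRingHom := by
      have h4 : ∀ x : A, (aeval t : MvPolynomial τ (FractionRing A) →ₐ[FractionRing A] Ω')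
          (algebraMap (MvPolynomial τ A) (MvPolynomial τ (FractionRing A)) (C x)) =
            algebraMap A Ω' x := by
        intro x
        rw [algebraMap_def, map_C, aeval_C, ← IsScalarTower.algebraMap_apply]
      refine MvPolynomial.ringHom_ext (fun r => ?_) fun s => ?_
      · show (aeval t : MvPolynomial τ (FractionRing A) →ₐ[FractionRing A] Ω')
          (algebraMap (MvPolynomial τ A) (MvPolynomial τ (FractionRing A))
            (Phi τ φ (algebraMap k _ r))) =
          aeval (Sum.elim t fun s => algebraMap Ω Ω' (φ s)) (algebraMap k _ r)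
        rw [AlgHom.commutes, AlgHom.commutes]
        have h5 : algebraMap k (MvPolynomial τ (rg (k := k) φ)) r =
          C (algebraMap k (rg (k := k) φ) r) := rfl
        rw [h5, h4]
        exact (IsScalarTower.algebraMap_apply k Ω Ω' r).symm
      · show (aeval t : MvPolynomial τ (FractionRing A) →ₐ[FractionRing A] Ω')
          (algebraMap (MvPolynomial τ A) (MvPolynomial τ (FractionRing A)) (Phi τ φ (X s))) =
          aeval (Sum.elim t fun s => algebraMap Ω Ω' (φ s)) (X s)
        rw [aeval_X, Phi, aeval_X]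
        rcases s with s | s
        · rw [Sum.elim_inl, Sum.elim_inl, algebraMap_def, map_X, aeval_X]
        · rw [Sum.elim_inr, Sum.elim_inr, h4]
          show algebraMap Ω Ω' (aeval φ (X s)) = algebraMap Ω Ω' (φ s)
          rw [aeval_X]
    exact (DFunLike.congr_fun h3 P).symm.trans h2
  · exfalso
    have h1 : zeroLocus Ω' I0 = ∅ := Set.eq_empty_of_forall_notMem fun t ht => hz ⟨t, ht⟩
    have h2 := vanishingIdeal_zeroLocus_eq_radical (K := Ω') I0
    rw [h1] at h2
    have h3 : I0 = ⊤ := by
      have h4 : (1 : MvPolynomial τ (FractionRing A)) ∈ I0.radical := by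
        rw [← h2]
        intro x hx
        exact absurd hx (Set.notMem_empty x)
      rw [← Ideal.radical_eq_top, Ideal.eq_top_iff_one]
      exact h4
    have h5 := (IsLocalization.map_algebraMap_ne_top_iff_disjoint
      ((nonZeroDivisors A).map (C (σ := τ))) (MvPolynomial τ (FractionRing A)) I1).not.1
      (not_not.2 h3)
    rw [Set.not_disjoint_iff] at h5
    obtain ⟨x, hx1, hx2⟩ := h5
    obtain ⟨q, hq, rfl⟩ := hx1
    have hx3 : C q ∈ (Ideal.span E).map (Phi τ φ) := hx2
    rw [Ideal.mem_map_iff_of_surjective _ (Phi_surj φ)] at hx3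
    obtain ⟨x, hx, hxq⟩ := hx3
    obtain ⟨q', hq'⟩ := AlgHom.rangeRestrict_surjective (aeval φ : MvPolynomial σ k →ₐ[k] Ω) q
    have h6 : aeval φ q' = 0 := by
      refine (h q').2 fun a ha => ?_
      obtain ⟨t, ht⟩ := hE a ha
      obtain ⟨e, he⟩ := exists_ev h ha
      have h7 := Phi_ev φ t e he x
      have h8 : aeval (Sum.elim t a) x = 0 := by
        have h9 : Ideal.span E ≤ RingHom.ker (aeval (Sum.elim t a) :
            MvPolynomial (τ ⊕ σ) k →ₐ[k] k) := by
          rw [Ideal.span_le]
          intro P hP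
          exact ht P hP
        exact h9 hx
      rw [hxq, h8, eval₂_C, ← hq'] at h7
      exact (he q').symm.trans h7
    refine nonZeroDivisors.ne_zero hq ?_
    rw [← hq']
    exact Subtype.ext h6

end MP9a7843
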