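import Pool.Agent.Lib.MP_9a7843_ag_L.Reps
import Pool.Agent.Lib.MP_9a7843_ag_A.Top
import Pool.Agent.Lib.MP_9a7843_ag.MorTop

/-!
# MP_9a7843_ag, block L: the equations of the lifts of a tuple
-/

noncomputable section

open MvPolynomial

open Pool.Agent.MP9a7843 Pool.Agent.MP9a7843.ProjVar

namespace MP9a7843

universe u

variable {k : Type u} [Field k] {X Y : ProjVar k}

/-- The unknowns: the coefficients of the polynomials `g_j`, `j ∈ Y.ι`, of degree `≤ e`, and the
inverse of the value of a form. -/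
abbrev Unk (Y : ProjVar k) (e : ℕ) : Type := (Y.ι × Fin (e + 1)) ⊕ Unit

/-- The universal ring. -/
abbrev UR (Y X : ProjVar k) (e d : ℕ) : Type u :=
  MvPolynomial (Unk Y e ⊕ (X.ι × Fin (d + 1))) k

/-- The universal `g_j`. -/
def ug (Y X : ProjVar k) (e d : ℕ) (j : Y.ι) : Polynomial (UR Y X e d) :=
  polyOf fun l : Fin (e + 1) => (MvPolynomial.X (Sum.inl (Sum.inl (j, l))) : UR Y X e d)

/-- The universal `m_i`. -/
def um (Y X : ProjVar k) (e d : ℕ) (i : X.ι) : Polynomial (UR Y X e d) :=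
  polyOf fun l : Fin (d + 1) => (MvPolynomial.X (Sum.inr (i, l)) : UR Y X e d)

/-- The equations: `G(g) = 0` for the forms `G` that vanish on `Y`,
`Q_i(g) m_{i'} = Q_{i'}(g) m_i`, and `w H(g(0)) = 1`. -/
def sysE (Y X : ProjVar k) (e d : ℕ) (Q : X.ι → MvPolynomial Y.ι k) (H : MvPolynomial Y.ι k) :
    Set (UR Y X e d) :=
  {P | ∃ (r : ℕ) (G : MvPolynomial Y.ι k) (n : ℕ), G.IsHomogeneous r ∧ aeval Y.z G = 0 ∧
      P = (aeval (ug Y X e d) G).coeff n} ∪
  {P | ∃ (i i' : X.ι) (n : ℕ), P = (aeval (ug Y X e d) (Q i) * um Y X e d i' -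
      aeval (ug Y X e d) (Q i') * um Y X e d i).coeff n} ∪
  {(MvPolynomial.X (Sum.inl (Sum.inr ())) : UR Y X e d) *
      aeval (fun j => (MvPolynomial.X (Sum.inl (Sum.inl (j, 0))) : UR Y X e d)) H - 1}

section Values

variable {e d : ℕ} {R : Type*} [CommRing R] [Algebra k R] (t : Unk Y e → R)
  (a : X.ι × Fin (d + 1) → R)

/-- The values of the universal polynomials. -/
theorem ug_map (j : Y.ι) :
    (ug Y X e d j).map (aeval (Sum.elim t a) : UR Y X e d →ₐ[k] R).toRingHom =
    polyOf fun l => t (Sum.inl (j, l)) := by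
  unfold ug
  rw [← polyOf_map]
  congr 1
  funext l
  change aeval (Sum.elim t a) (MvPolynomial.X (Sum.inl (Sum.inl (j, l))) : UR Y X e d) = _
  rw [aeval_X, Sum.elim_inl]

theorem um_map (i : X.ι) :
    (um Y X e d i).map (aeval (Sum.elim t a) : UR Y X e d →ₐ[k] R).toRingHom =
    polyOf fun l => a (i, l) := by
  unfold um
  rw [← polyOf_map]
  congr 1
  funext l
  change aeval (Sum.elim t a) (MvPolynomial.X (Sum.inr (i, l)) : UR Y X e d) = _
  rw [aeval_X, Sum.elim_inr]

/-- The values of the coefficients of a form in the universal polynomials. -/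
theorem aeval_ug_map (G : MvPolynomial Y.ι k) :
    (aeval (ug Y X e d) G).map (aeval (Sum.elim t a) : UR Y X e d →ₐ[k] R).toRingHom =
      aeval (fun j => polyOf fun l => t (Sum.inl (j, l))) G := by
  have h : (Polynomial.mapAlgHom (aeval (Sum.elim t a) : UR Y X e d →ₐ[k] R)).comp
      (aeval (ug Y X e d)) = aeval (fun j => polyOf fun l => t (Sum.inl (j, l))) := by
    refine MvPolynomial.algHom_ext fun j => ?_
    rw [AlgHom.comp_apply, aeval_X, aeval_X]
    exact ug_map t a j
  rw [← h, AlgHom.comp_apply]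
  rfl

private theorem sys_coeff (p : Polynomial (UR Y X e d)) :
    (∀ n, aeval (Sum.elim t a) (p.coeff n) = 0) ↔
      p.map (aeval (Sum.elim t a) : UR Y X e d →ₐ[k] R).toRingHom = 0 := by
  constructor
  · intro h
    refine Polynomial.ext fun n => ?_
    rw [Polynomial.coeff_map, Polynomial.coeff_zero]
    exact h n
  · intro h n
    have h1 := congrArg (fun q => Polynomial.coeff q n) h
    simp only [Polynomial.coeff_map, Polynomial.coeff_zero] at h1
    exact h1

/-- `(t, a)` solves the equations iff the polynomials satisfy the relations. -/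
theorem sysE_iff (Q : X.ι → MvPolynomial Y.ι k) (H : MvPolynomial Y.ι k) :
    (∀ P ∈ sysE Y X e d Q H, aeval (Sum.elim t a) P = 0) ↔
      (∀ (r : ℕ) (G : MvPolynomial Y.ι k), G.IsHomogeneous r → aeval Y.z G = 0 →
        aeval (fun j => polyOf fun l => t (Sum.inl (j, l))) G = 0) ∧
      (∀ i i', aeval (fun j => polyOf fun l => t (Sum.inl (j, l))) (Q i) *
          (polyOf fun l => a (i', l)) =
        aeval (fun j => polyOf fun l => t (Sum.inl (j, l))) (Q i') * polyOf fun l => a (i, l)) ∧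
      t (Sum.inr ()) * aeval (fun j => t (Sum.inl (j, 0))) H = 1 := by
  have hH : aeval (Sum.elim t a) ((MvPolynomial.X (Sum.inl (Sum.inr ())) : UR Y X e d) *
      aeval (fun j => (MvPolynomial.X (Sum.inl (Sum.inl (j, 0))) : UR Y X e d)) H - 1) =
      t (Sum.inr ()) * aeval (fun j => t (Sum.inl (j, 0))) H - 1 := by
    have h1 : aeval (Sum.elim t a)
        (aeval (fun j => (MvPolynomial.X (Sum.inl (Sum.inl (j, 0))) : UR Y X e d)) H) =
        aeval (fun j => t (Sum.inl (j, 0))) H := by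
      rw [← AlgHom.comp_apply]
      congr 1
      refine MvPolynomial.algHom_ext fun j => ?_
      rw [AlgHom.comp_apply, aeval_X, aeval_X, aeval_X, Sum.elim_inl]
    rw [map_sub, map_mul, aeval_X, map_one, h1, Sum.elim_inl]
  have hB : ∀ i i', (∀ n, aeval (Sum.elim t a) ((aeval (ug Y X e d) (Q i) * um Y X e d i' -
      aeval (ug Y X e d) (Q i') * um Y X e d i).coeff n) = 0) ↔
      aeval (fun j => polyOf fun l => t (Sum.inl (j, l))) (Q i) *
          (polyOf fun l => a (i', l)) =
        aeval (fun j => polyOf fun l => t (Sum.inl (j, l))) (Q i') *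
          polyOf fun l => a (i, l) := by
    intro i i'
    rw [sys_coeff, Polynomial.map_sub, Polynomial.map_mul, Polynomial.map_mul, aeval_ug_map,
      aeval_ug_map, um_map, um_map, sub_eq_zero]
  have hA : ∀ G : MvPolynomial Y.ι k, (∀ n, aeval (Sum.elim t a)
      ((aeval (ug Y X e d) G).coeff n) = 0) ↔
      aeval (fun j => polyOf fun l => t (Sum.inl (j, l))) G = 0 := by
    intro G
    rw [sys_coeff, aeval_ug_map]
  constructor
  · intro h
    refine ⟨fun r G hG hz => (hA G).1 fun n => h _ (Or.inl (Or.inl ⟨r, G, n, hG, hz, rfl⟩)),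
      fun i i' => (hB i i').1 fun n => h _ (Or.inl (Or.inr ⟨i, i', n, rfl⟩)), ?_⟩
    have h1 := h _ (Or.inr rfl)
    rw [hH] at h1
    exact sub_eq_zero.1 h1
  · rintro ⟨h1, h2, h3⟩ P ((⟨r, G, n, hG, hz, rfl⟩ | ⟨i, i', n, rfl⟩) | hP)
    · exact (hA G).2 (h1 r G hG hz) n
    · exact (hB i i').2 (h2 i i') n
    · have hP' : P = (MvPolynomial.X (Sum.inl (Sum.inr ())) : UR Y X e d) *
          aeval (fun j => (MvPolynomial.X (Sum.inl (Sum.inl (j, 0))) : UR Y X e d)) H - 1 := hP
      rw [hP', hH, h3, sub_self]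

end Values

/-- A lift of a tuple gives a solution.  (The unknowns are the coefficients of `b` and the inverse
of `H(b(0))`.  First family: `formVal b (r, 1)` is a point of `Y` for all `r`, so `G(g)` vanishes
at all `r`; or `Tuple.isPt_gen`.  Cross relations: at every `r ∈ k` they follow from
`Hom.app_forms` at the point `formVal b (r, 1)` and `isComp_mor_iff`; `Polynomial.funext`.) -/
theorem exists_sys [IsAlgClosed k] (f : Hom Y X) {n : ℕ} {Q : X.ι → MvPolynomial Y.ι k}
    {H : MvPolynomial Y.ι k} (hQ : IsRep f n Q H) {e d : ℕ} (b : Y.Tuple e) (a : X.Tuple d)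
    (h : f.IsComp b.mor a.mor) (h0 : aeval (fun j => b.1 (j, 0)) H ≠ 0) :
    ∃ t : Unk Y e → k, ∀ P ∈ sysE Y X e d Q H, aeval (Sum.elim t a.1) P = 0 := by
  have hinf : Infinite k := IsAlgClosed.instInfinite
  refine ⟨Sum.elim b.1 fun _ => (aeval (fun j => b.1 (j, 0)) H)⁻¹, ?_⟩
  rw [sysE_iff]
  simp only [Sum.elim_inl, Sum.elim_inr]
  have hb : ∀ (r : k) (j : Y.ι),
      (polyOf fun l => b.1 (j, l)).eval r = Y.formVal e b.1 (r, 1) j := fun r j =>
    (formVal_eq b.1 r j).symm
  have ha : ∀ (r : k) (i : X.ι),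
      (polyOf fun l => a.1 (i, l)).eval r = X.formVal d a.1 (r, 1) i := fun r i =>
    (formVal_eq a.1 r i).symm
  have hs : ∀ r : k, ((r, 1) : k × k) ≠ 0 := fun r h' => one_ne_zero (congrArg Prod.snd h')
  have hev : ∀ (G : MvPolynomial Y.ι k) (r : k),
      (aeval (fun j => polyOf fun l => b.1 (j, l)) G).eval r =
        aeval (Y.formVal e b.1 (r, 1)) G := by
    intro G r
    have h1 : (Polynomial.aeval r).comp (aeval (fun j => polyOf fun l => b.1 (j, l))) =
        (aeval (Y.formVal e b.1 (r, 1)) : MvPolynomial Y.ι k →ₐ[k] k) := by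
      refine MvPolynomial.algHom_ext fun j => ?_
      rw [AlgHom.comp_apply, aeval_X, aeval_X, Polynomial.coe_aeval_eq_eval, hb]
    rw [← h1, AlgHom.comp_apply, Polynomial.coe_aeval_eq_eval]
  refine ⟨fun m G hG hz => ?_, fun i i' => ?_, inv_mul_cancel₀ h0⟩
  · refine Polynomial.funext fun r => ?_
    rw [hev, Polynomial.eval_zero]
    exact (b.2 (r, 1) (hs r)).2 m G hG hz
  · refine Polynomial.funext fun r => ?_
    rw [Polynomial.eval_mul, Polynomial.eval_mul, hev, hev, ha, ha]
    obtain ⟨ρ, hρ, h1⟩ := (isComp_mor_iff f b a).1 h (r, 1) (hs r)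
    have h2 := f.app_forms (b.2 (r, 1) (hs r)) hQ.homog hQ.cross i i'
    rw [h1] at h2
    simp only [Pi.smul_apply, smul_eq_mul] at h2
    refine mul_left_cancel₀ hρ ?_
    linear_combination h2

end MP9a7843
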