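import Pool.Agent.Lib.MP_9a7843_ag_L.GenSol
import Pool.Agent.Lib.MP_9a7843_ag_L.Sys

/-!
# MP_9a7843_ag, block L: the generic curve of an accumulating component lifts (polynomial form)
-/

noncomputable section

open MvPolynomial

open Pool.Agent.MP9a7843 Pool.Agent.MP9a7843.ProjVar

namespace MP9a7843

universe u

variable {k : Type u} [Field k] {X Y : ProjVar k}

/-- The polynomials `g` over `Ω` are a lift of the polynomials `m`: `g` is a point of `Y`, and the
forms `Q` represent `f` and map `g` to `m`. -/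
structure IsLift (f : Hom Y X) {Ω : Type u} [Field Ω] [Algebra k Ω] (n : ℕ)
    (Q : X.ι → MvPolynomial Y.ι k) (g : Y.ι → Polynomial Ω) (m : X.ι → Polynomial Ω) : Prop where
  homog : ∀ i, (Q i).IsHomogeneous n
  cross : ∀ i i', aeval Y.z (Q i) * f.coord i' = aeval Y.z (Q i') * f.coord i
  g_ne : ∃ j, g j ≠ 0
  g_van : ∀ (r : ℕ) (G : MvPolynomial Y.ι k), G.IsHomogeneous r → aeval Y.z G = 0 →
    aeval g G = 0
  q_ne : ∃ i, aeval g (Q i) ≠ 0
  g_cross : ∀ i i', aeval g (Q i) * m i' = aeval g (Q i') * m i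

private theorem polyOf_eval_zero {R : Type*} [CommRing R] {n : ℕ} (a : Fin (n + 1) → R) :
    (polyOf a).eval 0 = a 0 := by
  unfold polyOf
  rw [Polynomial.eval_finsetSum, Finset.sum_eq_single 0]
  · simp
  · intro j _ hj
    have h1 : (j : ℕ) ≠ 0 := fun h => hj (Fin.ext h)
    rw [Polynomial.eval_mul, Polynomial.eval_pow, Polynomial.eval_X, zero_pow h1, mul_zero]
  · intro h
    exact absurd (Finset.mem_univ _) h

private theorem eval_zero_aeval {R : Type*} [CommRing R] [Algebra k R] {ι : Type*}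
    (g : ι → Polynomial R) (Q : MvPolynomial ι k) :
    (aeval g Q).eval 0 = aeval (fun j => (g j).eval 0) Q := by
  induction Q using MvPolynomial.induction_on with
  | C c =>
    rw [MvPolynomial.aeval_C, MvPolynomial.aeval_C, IsScalarTower.algebraMap_apply k R,
      Polynomial.algebraMap_eq, Polynomial.eval_C]
  | add p q hp hq => rw [map_add, map_add, Polynomial.eval_add, hp, hq]
  | mul_X p i hp =>
    rw [map_mul, map_mul, Polynomial.eval_mul, hp, MvPolynomial.aeval_X, MvPolynomial.aeval_X]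

private theorem formVal_zero_one {e : ℕ} (b : Y.ι × Fin (e + 1) → k) :
    Y.formVal e b (0, 1) = fun j => b (j, 0) := by
  funext j
  unfold formVal
  rw [Finset.sum_eq_single 0]
  · simp
  · intro i _ hi
    have h1 : (i : ℕ) ≠ 0 := fun h => hi (Fin.ext h)
    change b (j, i) * (0 : k) ^ (i : ℕ) * _ = 0
    rw [zero_pow h1, mul_zero, zero_mul]
  · intro h
    exact absurd (Finset.mem_univ _) h

/-- The generic tuple of a component that is dominated by `N` has a lift.

Let `D` be the set of the representatives of `M`.  All elements of `N` have the same degree `e`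
(`exists_deg`, `N` is irreducible).  By `mem_closure_mor_iff`, `φ` is a generic point of
`D' = {a ∈ D | a.mor = f ∘ g for some g ∈ N}`; `D'` is the union of the `D'_y`, `y ∈ s`
(`exists_reps`, the point `formVal b (0, 1) = b(·, 0)`), so `φ` is a generic point of one
`D'_y` (`GenOf.cover`).  By `exists_sys` the system is solvable over `D'_y`, by
`GenOf.exists_solution` it is solvable over `φ`; `sysE_iff`.  From `w H(g(0)) = 1`, `H = Q_i x_j`:
the constant coefficients of `Q_i(g)` and `g_j` are not zero. -/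
theorem exists_isLift [IsAlgClosed k] (f : Hom Y X) {M : Set X.Mor} {N : Set Y.Mor}
    (hN : IsIrreducible N) (hM : M ⊆ closure {G | G ∈ M ∧ ∃ g ∈ N, f.IsComp g G})
    {d : ℕ} {Ω : Type u} [Field Ω] [Algebra k Ω] {φ : X.ι × Fin (d + 1) → Ω}
    (hφ : IsGenericOf M d φ) :
    ∃ (n : ℕ) (Q : X.ι → MvPolynomial Y.ι k) (g : Y.ι → Polynomial (AlgebraicClosure Ω)),
      IsLift f n Q g fun i => polyOf fun j => algebraMap Ω (AlgebraicClosure Ω) (φ (i, j)) := by
  obtain ⟨e, hdeg⟩ := exists_deg hN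
  have hN' : ∀ g ∈ N, ∃ b : Y.Tuple e, b.mor = g := by
    intro g hg
    obtain ⟨b, hb⟩ := Mor.exists_tuple g
    have h := hdeg g hg
    subst h
    exact ⟨b, hb.symm⟩
  obtain ⟨s, n, Q, H, hrep, hcov⟩ := exists_reps f
  have hgen : GenOf φ {v : X.ι × Fin (d + 1) → k | ∃ a : X.Tuple d, a.1 = v ∧ a.mor ∈ M ∧
      ∃ g ∈ N, f.IsComp g a.mor} := by
    intro p
    constructor
    · rintro hp v ⟨a, rfl, haM, -⟩
      exact (hφ.2 p).1 hp a haM
    · intro hp
      refine (hφ.2 p).2 fun a haM => ?_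
      refine mem_closure_mor_iff.1 (hM haM) p fun b hb => ?_
      exact hp b.1 ⟨b, rfl, hb.1, hb.2⟩
  obtain ⟨y, hy, hgy⟩ := hgen.cover s
    (fun y => {v : X.ι × Fin (d + 1) → k | ∃ a : X.Tuple d, a.1 = v ∧ a.mor ∈ M ∧
      ∃ b : Y.Tuple e, b.mor ∈ N ∧ f.IsComp b.mor a.mor ∧
        aeval (fun j => b.1 (j, 0)) (H y) ≠ 0})
    (by
      rintro y - v ⟨a, rfl, haM, b, hbN, hb, -⟩
      exact ⟨a, rfl, haM, b.mor, hbN, hb⟩)
    (by
      rintro v ⟨a, rfl, haM, g, hgN, hg⟩
      obtain ⟨b, rfl⟩ := hN' g hgN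
      have hpt : Y.IsPt (Y.formVal e b.1 (0, 1)) := b.2 (0, 1) (by simp)
      rw [formVal_zero_one] at hpt
      obtain ⟨y, hy, h0⟩ := hcov _ hpt
      exact ⟨y, hy, a, rfl, haM, b, hgN, hg, h0⟩)
  obtain ⟨t, ht⟩ := hgy.exists_solution (Ω' := AlgebraicClosure Ω) (τ := Unk Y e)
    (sysE Y X e d (Q y) (H y))
    (by
      rintro v ⟨a, rfl, haM, b, hbN, hb, h0⟩
      exact exists_sys f (hrep y hy) b a hb h0)
  obtain ⟨h1, h2, h3⟩ := (sysE_iff t (fun s => algebraMap Ω (AlgebraicClosure Ω) (φ s)) (Q y)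
    (H y)).1 ht
  obtain ⟨i, j, hH⟩ := (hrep y hy).eq
  have h4 : aeval (fun j => t (Sum.inl (j, 0))) (H y) ≠ 0 := by
    intro h0
    rw [h0, mul_zero] at h3
    exact zero_ne_one h3
  rw [hH, map_mul, MvPolynomial.aeval_X] at h4
  refine ⟨n y, Q y, fun j => polyOf fun l => t (Sum.inl (j, l)), (hrep y hy).homog,
    (hrep y hy).cross, ⟨j, fun h0 => ?_⟩, h1, ⟨i, fun h0 => ?_⟩, h2⟩
  · have h5 := congrArg (Polynomial.eval 0) h0
    rw [polyOf_eval_zero, Polynomial.eval_zero] at h5
    exact right_ne_zero_of_mul h4 h5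
  · have h5 := congrArg (Polynomial.eval 0) h0
    rw [eval_zero_aeval, Polynomial.eval_zero] at h5
    simp only [polyOf_eval_zero] at h5
    exact left_ne_zero_of_mul h4 h5

end MP9a7843
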