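import Pool.Agent.Lib.MP_9a7843_ag.Hom

/-!
# MP_9a7843_ag, block L: finitely many representatives of a morphism
-/

noncomputable section

open MvPolynomial

open Pool.Agent.MP9a7843 Pool.Agent.MP9a7843.ProjVar

namespace MP9a7843

universe u

variable {k : Type u} [Field k] {X Y : ProjVar k}

/-- `(Q, H)` is a representative of `f`: `f` is given by the forms `Q_i` where they do not all
vanish, and `H = Q_i x_j` for some `i`, `j`. -/
structure IsRep (f : Hom Y X) (n : ℕ) (Q : X.ι → MvPolynomial Y.ι k) (H : MvPolynomial Y.ι k) :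
    Prop where
  homog : ∀ i, (Q i).IsHomogeneous n
  cross : ∀ i i', aeval Y.z (Q i) * f.coord i' = aeval Y.z (Q i') * f.coord i
  eq : ∃ i j, H = Q i * MvPolynomial.X j

/-- Finitely many representatives cover `Y`.  (For a closed point `y` take the forms of
`Hom.exists_forms` and `H y = Q_i x_j` with `Q_i(y) ≠ 0`, `y_j ≠ 0`; apply
`exists_finite_cover`.  Outside of the closed points choose anything.) -/
theorem exists_reps [IsAlgClosed k] (f : Hom Y X) :
    ∃ (s : Finset (Y.ι → k)) (n : (Y.ι → k) → ℕ) (Q : (Y.ι → k) → X.ι → MvPolynomial Y.ι k)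
      (H : (Y.ι → k) → MvPolynomial Y.ι k), (∀ y ∈ s, IsRep f (n y) (Q y) (H y)) ∧
      ∀ y' : Y.ι → k, Y.IsPt y' → ∃ y ∈ s, aeval y' (H y) ≠ 0 := by
  classical
  have h1 : ∀ y : Y.ι → k, Y.IsPt y → ∃ (n : ℕ) (Q : X.ι → MvPolynomial Y.ι k)
      (H : MvPolynomial Y.ι k), IsRep f n Q H ∧ aeval y H ≠ 0 := by
    intro y hy
    obtain ⟨d, Q, hQ, ⟨i, hi⟩, hc⟩ := f.exists_forms hy
    obtain ⟨j, hj⟩ := hy.1
    refine ⟨d, Q, Q i * MvPolynomial.X j, ⟨hQ, hc, i, j, rfl⟩, ?_⟩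
    rw [map_mul, aeval_X]
    exact mul_ne_zero hi hj
  choose! n Q H h2 h3 using h1
  obtain ⟨s, hs1, hs2⟩ := exists_finite_cover H h3
  exact ⟨s, n, Q, H, fun y hy => h2 y (hs1 y hy), hs2⟩

end MP9a7843
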